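import Pool.Agent.TH978.S13.Defs

/-! The leading form for points on `Y = 1` and one point `(t x0, y0)`. -/

set_option autoImplicit false

namespace Pool.Agent.TH978.S13

open Finset Pool.Agent.TH176.Nag

namespace LeadForm_

/-- scaling the first variable by `tv` -/
noncomputable def sc (f : (ℤ × ℤ) →₀ LaurentSeries ℚ) : (ℤ × ℤ) →₀ LaurentSeries ℚ :=
  Finsupp.onFinset f.support (fun m => f m * tv ℚ ^ m.1) (fun m hm => by
    rw [Finsupp.mem_support_iff]
    intro h
    apply hm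
    rw [h, zero_mul])

theorem sc_apply (f : (ℤ × ℤ) →₀ LaurentSeries ℚ) (m : ℤ × ℤ) : sc f m = f m * tv ℚ ^ m.1 := rfl

theorem tv_ne : tv ℚ ≠ 0 := by simp [tv]

theorem sc_support (f : (ℤ × ℤ) →₀ LaurentSeries ℚ) : (sc f).support = f.support := by
  ext m
  rw [Finsupp.mem_support_iff, Finsupp.mem_support_iff, sc_apply]
  simp [zpow_ne_zero _ tv_ne]

theorem LM_sc {f : (ℤ × ℤ) →₀ LaurentSeries ℚ} {x y : LaurentSeries ℚ} {w : ℕ}
    (h : LM f (tv ℚ * x) y w) : LM (sc f) x y w := by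
  intro P hP
  have h1 := h P hP
  unfold pr Finsupp.sum at h1 ⊢
  rw [sc_support, ← h1]
  apply sum_congr rfl
  intro m _
  beta_reduce
  rw [sc_apply, mul_zpow]
  ring

theorem tv_zpow (c : ℤ) : tv ℚ ^ c = HahnSeries.single c 1 := by
  rw [tv]
  exact (RatFunc.single_zpow c).symm

theorem coeff_tv (u : LaurentSeries ℚ) (c k : ℤ) : (u * tv ℚ ^ c).coeff k = u.coeff (k - c) := by
  rw [tv_zpow]
  have h := HahnSeries.coeff_mul_single_add (r := (1 : ℚ)) (x := u) (a := k - c) (b := c)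
  rw [sub_add_cancel, mul_one] at h
  exact h

end LeadForm_

open LeadForm_ in
theorem lead_form {ι : Type} (x : ι → ℚ) (x0 y0 : ℚ) {m : ℕ} {f : (ℤ × ℤ) →₀ LaurentSeries ℚ}
    (hf : f ≠ 0) (hL : ∀ i, LM f (cst (x i)) 1 m) (hL0 : LM f (tv ℚ * cst x0) (cst y0) m) :
    ∃ g : (ℤ × ℤ) →₀ ℚ, g ≠ 0 ∧ g.support ⊆ f.support ∧ LM g x0 y0 m ∧
      ∀ c : ℤ, ∃ h : (ℤ × ℤ) →₀ ℚ, h.support ⊆ f.support ∧ (∀ i, LM h (x i) 1 m) ∧
        (∀ p ∈ h.support, c ≤ p.1) ∧ ∀ b, h (c, b) = g (c, b) := by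
  have h1 : LM (sc f) (cst x0) (cst y0) m := LM_sc hL0
  have h2 : sc f ≠ 0 := by
    intro h
    apply hf
    rw [← Finsupp.support_eq_empty, ← sc_support, h, Finsupp.support_zero]
  obtain ⟨n, hn1, hn2, -⟩ := exists_lead h2
  refine ⟨(sc f).mapRange (fun u => u.coeff n) rfl, hn1, ?_, LM_coeff h1 n, ?_⟩
  · exact Finsupp.support_mapRange.trans (sc_support f).le
  · intro c
    refine ⟨f.mapRange (fun u => u.coeff (n - c)) rfl, Finsupp.support_mapRange, ?_, ?_, ?_⟩
    · intro i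
      apply LM_coeff
      have e : (cst (1 : ℚ) : LaurentSeries ℚ) = 1 := map_one _
      rw [e]
      exact hL i
    · intro p hp
      rw [Finsupp.mem_support_iff, Finsupp.mapRange_apply] at hp
      by_contra hlt
      push Not at hlt
      apply hp
      have h3 := hn2 p (n - c + p.1) (by omega)
      rw [sc_apply, coeff_tv] at h3
      rw [← h3]
      congr 1
      ring
    · intro b
      rw [Finsupp.mapRange_apply, Finsupp.mapRange_apply, sc_apply, coeff_tv]

end Pool.Agent.TH978.S13
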